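import Pool.Agent.Y613.PJ.Fin

/-!
# The restricted density polynomial Hales-Jewett conjecture for families of bounded memory

In every dimension `d` the conjecture holds, with an exponentially small density, for the families of
subsets of `[N]^d` which are decided by machines with a bounded number of states that read the
characteristic function of the set a bounded number of times, for instance by rows or by columns, and
for all families which contain most of such a family.

The proof uses the polynomial Hales-Jewett theorem of Bergelson and Leibman, which is proved here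
(`Pool.Agent.Y613.PJ.pet`, `exists_full`), for the colouring of the contents of a diagonal block by
the relations between states that they induce.
-/

set_option autoImplicit false

namespace Pool.Agent.Results.MP_90b327_co.BoundedMemoryFamilies

open Finset Pool.Agent.Y613.PJ

/-- The family `F` of subsets of `[N]^d` is decided with `w` states in `p` passes: there are a
nondeterministic machine `M` with at most `w` states, a numbering `σ` of `[N]` and orders
`o 0, ..., o (p - 1)` of the cells of `[N]^d`, compatible with `σ`, such that `A` is in `F` if and only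
if `M` has an accepting run when it reads the bits of (the characteristic function of) `A` in the
order `o 0`, then again in the order `o 1`, and so on. The transitions of `M` may depend on the time
and on the number of the pass. -/
def Decided (d N w p : ℕ) (F : Finset (Finset (Fin d → Fin N))) : Prop :=
  ∃ (Q : Type) (_ : Fintype Q) (M : Machine Q) (σ : Fin N ≃ Fin N)
    (o : Fin p → Fin (N ^ d) ≃ (Fin d → Fin N)),
    Fintype.card Q ≤ w ∧ (∀ i, Compatible σ (o i)) ∧
      ∀ A, A ∈ F ↔ Accepts M o (fun c => decide (c ∈ A))

/-- Example: the lexicographic order of the cells (`d ≥ 1`) is compatible with the usual numbering. -/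
theorem lexicographic (d N : ℕ) (hd : 1 ≤ d) :
    Compatible (Equiv.refl (Fin N)) (finFunctionFinEquiv (m := N) (n := d)).symm := by
  left
  intro c c' h
  rw [Equiv.symm_symm, Fin.lt_def, finFunctionFinEquiv_apply, finFunctionFinEquiv_apply]
  rcases Nat.eq_zero_or_pos N with rfl | hN
  · exact (c ⟨0, hd⟩).elim0
  · refine Finset.sum_lt_sum_of_nonempty ⟨⟨0, hd⟩, Finset.mem_univ _⟩ fun i _ => ?_
    exact Nat.mul_lt_mul_of_pos_right (h i i) (pow_pos hN _)

/-- For all `d ≥ 1`, `w` and `p` there are `η > 0` and `lam < 1` with the following properties.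

(1) If `F` is decided with `w` states in `p` passes and has more than `8 lam^N 2^(N^d)` elements, then
every family `S` which contains all elements of `F` except for at most `η |F|` is good: there are
`A ∈ S` and a nonempty `γ ⊆ [N]` with `A ∩ γ^d = ∅` and `A ∪ γ^d ∈ S`.

(2) A union of `T` families which are decided with `w` states in `p` passes (with different machines,
numberings and orders) is good, if it has more than `8 T lam^N 2^(N^d)` elements. -/
theorem result (d w p : ℕ) (hd : 1 ≤ d) : ∃ η lam : ℝ, 0 < η ∧ 0 < lam ∧ lam < 1 ∧
    (∀ (N : ℕ) (F S : Finset (Finset (Fin d → Fin N))), Decided d N w p F →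
      8 * lam ^ N * 2 ^ (N ^ d) < #F → (#(F \ S) : ℝ) ≤ η * #F → Good S) ∧
    (∀ (N T : ℕ) (G : Fin T → Finset (Finset (Fin d → Fin N)))
      (S : Finset (Finset (Fin d → Fin N))), (∀ i, Decided d N w p (G i)) →
      (∀ A, A ∈ S ↔ ∃ i, A ∈ G i) → 8 * T * lam ^ N * 2 ^ (N ^ d) < #S → Good S) := by
  classical
  obtain ⟨η, lam, hη, hlam, hlam1, h⟩ := main d hd w p
  refine ⟨η, lam, hη, hlam, hlam1, ?_, ?_⟩
  · rintro N F S ⟨Q, hQ, M, σ, o, hw, ho, hF⟩ h1 h2
    exact h Q hw N M σ o ho F S hF h1 h2
  · intro N T G S hG hS hcard
    have hex : ∃ i, 8 * lam ^ N * 2 ^ (N ^ d) < (#(G i) : ℝ) := by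
      by_contra hno
      push Not at hno
      have h1 : S = Finset.univ.biUnion G := by
        ext A
        rw [hS, Finset.mem_biUnion]
        simp
      have h2 : (#S : ℝ) ≤ ∑ i, (#(G i) : ℝ) := by
        rw [h1]
        exact_mod_cast Finset.card_biUnion_le
      have h3 : ∑ i, (#(G i) : ℝ) ≤ ∑ _i : Fin T, 8 * lam ^ N * 2 ^ (N ^ d) :=
        Finset.sum_le_sum fun i _ => hno i
      rw [Finset.sum_const, Finset.card_univ, Fintype.card_fin, nsmul_eq_mul] at h3
      have h4 : (T : ℝ) * (8 * lam ^ N * 2 ^ (N ^ d)) = 8 * T * lam ^ N * 2 ^ (N ^ d) := by ring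
      linarith
    obtain ⟨i, hi⟩ := hex
    obtain ⟨Q, hQ, M, σ, o, hw, ho, hF⟩ := hG i
    refine h Q hw N M σ o ho (G i) S hF hi ?_
    have h1 : G i \ S = ∅ := Finset.sdiff_eq_empty_iff_subset.2 fun A hA => (hS A).2 ⟨i, hA⟩
    rw [h1, Finset.card_empty, Nat.cast_zero]
    positivity

end Pool.Agent.Results.MP_90b327_co.BoundedMemoryFamilies
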