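import Pool.Agent.Y613.RA.Top

/-!
# The restricted density polynomial Hales-Jewett conjecture for branching programs of bounded width

In every dimension the conjecture holds for the families of subsets of `[N]^d` which are decided by
nondeterministic branching programs of bounded width in which each cell is queried at a bounded number
of nodes, in any order; also for all families which contain most of such a family, and with width,
number of queries and inverse density tending to infinity.

The proof combines the polynomial Hales-Jewett theorem of Bergelson and Leibman (proved in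
`Pool.Agent.Y613.PJ`) with Ramsey's theorem for `2d`-sets of coordinates: on a homogeneous set of
coordinates all queries of the cells of a diagonal block which have the same pattern and the same
number come in an interval of time in which no other diagonal block is queried.
-/

set_option autoImplicit false

namespace Pool.Agent.Results.MP_90b327_co.BoundedWidthPrograms

open Finset Pool.Agent.Y613.PJ Pool.Agent.Y613.RA

/-- The iterated exponential `2 ^ 2 ^ ... ^ x` with `C` twos. -/
def tower : ℕ → ℕ → ℕ
  | 0, x => x
  | C + 1, x => 2 ^ tower C x

theorem tower_eq (C x : ℕ) : tower C x = RC.tow C x := by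
  induction C with
  | zero => rfl
  | succ C ih => simp only [tower, RC.tow, ih]

/-- For every `d ≥ 1`:

(1) There is `C` such that for all `w` and `p` there are `η > 0`, `lam < 1` and `a` with: if
`N ≥ tower C (a (K + 1))`, the family `F` of subsets of `[N]^d` is decided by a nondeterministic
branching program of width at most `w` in which each cell is queried at most at `p` nodes, and `F` has
more than `8 lam^K 2^(N^d)` elements, then every family `S` which contains all elements of `F` except
for at most `η |F|` is good: there are `A ∈ S` and a nonempty `γ ⊆ [N]` with `A ∩ γ^d = ∅` and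
`A ∪ γ^d ∈ S`.

(2) There is a function `f` which tends to infinity such that for all `N` every family `S` with
`|S| ≥ 2^(N^d) / f(N)` which is the union of `f(N)` families decided by programs of width at most
`f(N)` in which each cell is queried at most at `f(N)` nodes is good. -/
theorem result (d : ℕ) (hd : 1 ≤ d) :
    (∃ C : ℕ, ∀ w p : ℕ, ∃ (η lam : ℝ) (a : ℕ), 0 < η ∧ 0 < lam ∧ lam < 1 ∧
      ∀ (N K : ℕ) (F S : Finset (Finset (Fin d → Fin N))),
        tower C (a * (K + 1)) ≤ N → Decided d N w p F → 8 * lam ^ K * 2 ^ (N ^ d) < #F →
          (#(F \ S) : ℝ) ≤ η * #F → Good S) ∧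
    ∃ f : ℕ → ℕ, Filter.Tendsto f Filter.atTop Filter.atTop ∧
      ∀ (N : ℕ) (G : Fin (f N) → Finset (Finset (Fin d → Fin N)))
        (S : Finset (Finset (Fin d → Fin N))), (∀ i, Decided d N (f N) (f N) (G i)) →
        (∀ A, A ∈ S ↔ ∃ i, A ∈ G i) → 2 ^ (N ^ d) ≤ f N * #S → Good S := by
  refine ⟨?_, growing d hd⟩
  obtain ⟨C, h⟩ := core d hd
  refine ⟨C, fun w p => ?_⟩
  obtain ⟨η, lam, a, h1, h2, h3, h4⟩ := h w p
  exact ⟨η, lam, a, h1, h2, h3, fun N K F S hN => h4 N K F S (by rwa [← tower_eq])⟩

end Pool.Agent.Results.MP_90b327_co.BoundedWidthPrograms
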