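import Pool.Agent.Y347.CO.Final4
import Pool.Agent.TH635.PH.Thr
import Pool.Agent.TH635.BV.Thr2

set_option autoImplicit false

/-!
# The restricted density polynomial Hales-Jewett conjecture and circuits of constant depth

Families of subsets of `[N]^h` decided by circuits of constant depth and size `2 ^ ℓ` are good if
they have more than `2 ^ (2 ℓ + 4) 2 ^ (N ^ h - N / loss)` elements. Every family which is not good
has relative density at most `θ + o(1)` in every family decided by such a circuit which has at least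
`2 ^ (N ^ h - c N / loss)` elements, if the conjecture holds for the densities above `θ`. Here
`loss = d (2 ^ (d + 9) w ℓ) ^ d`.
-/

namespace Pool.Agent.Results.MP_90b327_co.ConstantDepthCircuits

open Finset Function

/-- The family `S` of subsets of `[N]^h` is good: there are `A ∈ S` and a nonempty `γ ⊆ [N]` with
`A ∩ γ^h = ∅` and `A ∪ γ^h ∈ S`. -/
def Good {h N : ℕ} (S : Finset (Finset (Fin h → Fin N))) : Prop :=
  ∃ A ∈ S, ∃ γ : Finset (Fin N), γ.Nonempty ∧
    Disjoint A (Fintype.piFinset (fun _ : Fin h => γ)) ∧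
    A ∪ Fintype.piFinset (fun _ : Fin h => γ) ∈ S

/-- `F` is decided by a circuit of depth at most `d` with at most `2 ^ ℓ` nodes, which reads the
`N ^ h` bits of a subset of `[N]^h` (in any numbering `e`); its gates are AND and OR gates of any
number of wires and arbitrary gates with at most `w` wires, negations are free. -/
def Decided (w ℓ d : ℕ) {h N : ℕ} (F : Finset (Finset (Fin h → Fin N))) : Prop :=
  ∃ (C : Y603.MS.Circuit w (N ^ h)) (o : C.Node) (e : (Fin h → Fin N) ≃ Fin (N ^ h)),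
    C.leak = ∅ ∧ Nat.card C.Node ≤ 2 ^ ℓ ∧ (∀ v, C.depth v ≤ d) ∧
    ∀ A, A ∈ F ↔ C.val o (fun j => decide (e.symm j ∈ A)) = true

/-- `loss w ℓ d = d (2 ^ (d + 9) w ℓ) ^ d` -/
def loss (w ℓ d : ℕ) : ℕ := d * (2 ^ (d + 9) * (w * ℓ)) ^ d

/-- The conjecture holds in dimension `h` for all densities above `θ`; `Q1` is the statement that
`Above h 0` holds for all `h ≥ 1`. -/
def Above (h : ℕ) (θ : ℝ) : Prop :=
  ∀ δ : ℝ, θ < δ → ∃ N : ℕ, 1 ≤ N ∧ ∀ S : Finset (Finset (Fin h → Fin N)),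
    δ * (2 : ℝ) ^ (N ^ h) < S.card → Good S

/-- The density above which the conjecture is known: `0` for `h = 1`, `0.3223` for `h = 2`, and
`(2^(h-1) - 1)/(2^h - 1)` for `h ≥ 3`. -/
noncomputable def threshold (h : ℕ) : ℝ :=
  if h = 2 then 3223 / 10000 else ((2 : ℝ) ^ (h - 1) - 1) / (2 ^ h - 1)

/-- The relative form with density `θ'`: families that are not good have relative density at most
`θ'`, up to an exponentially small error, in all families decided by circuits. -/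
def Relative (h : ℕ) (θ' : ℝ) : Prop :=
  ∃ c : ℝ, 0 < c ∧ ∀ N w ℓ d : ℕ, 1 ≤ w → 1 ≤ ℓ → 1 ≤ d →
    ∀ F S : Finset (Finset (Fin h → Fin N)), Decided w ℓ d F → ¬ Good S →
      ((S ∩ F).card : ℝ) ≤ θ' * F.card +
        2 ^ (N ^ h) * (2 : ℝ) ^ (2 * ℓ + 1 / c - c * N / loss w ℓ d : ℝ)

/-- **Theorem.** Let `h, w, ℓ, d ≥ 1`.
(1) If a family `S` of subsets of `[N]^h` is a union of `T` families decided by circuits of depth `d`
with `2 ^ ℓ` nodes and `S` is not good, then `|S| ≤ T 2^(N^h) 2^(2 ℓ + 4 - N / loss)`.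
(2) Let `1 ≤ m ≤ N` and suppose that families of subsets of `[m]^h` which are not good have at most
`r` members. For every family `F` of subsets of `[N]^h` decided by such a circuit, every family `S`
that is not good and every `ε > 0`,
`|S ∩ F| ≤ (r / 2^(m^h) + ε) |F| + (2 m^h / ε) 2^(N^h) 2^(2 ℓ + 4 - (ε / 2) ⌊N / m⌋ / loss)`.
(3) If the conjecture holds in dimension `h` for all densities above `θ`, then its relative form
holds for all densities above `θ`. So `Q1` implies its relative form for all positive densities.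
(4) The relative form holds for all densities above `threshold h`: above `0` for `h = 1`, above
`0.3223` for `h = 2`, above `3/7` for `h = 3`. -/
theorem result :
    (∀ h N w ℓ d T : ℕ, 1 ≤ h → 1 ≤ w → 1 ≤ ℓ → 1 ≤ d →
      ∀ (S : Finset (Finset (Fin h → Fin N))) (F : Fin T → Finset (Finset (Fin h → Fin N))),
        ¬ Good S → (∀ i, Decided w ℓ d (F i)) → (∀ A, A ∈ S ↔ ∃ i, A ∈ F i) →
        (S.card : ℝ) ≤ T * 2 ^ (N ^ h) * (2 : ℝ) ^ (2 * ℓ + 4 - N / loss w ℓ d : ℝ)) ∧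
    (∀ h N m w ℓ d r : ℕ, 1 ≤ h → 1 ≤ w → 1 ≤ ℓ → 1 ≤ d → 1 ≤ m → m ≤ N →
      (∀ B : Finset (Finset (Fin h → Fin m)), ¬ Good B → B.card ≤ r) →
      ∀ F S : Finset (Finset (Fin h → Fin N)), Decided w ℓ d F → ¬ Good S →
        ∀ ε : ℝ, 0 < ε → ((S ∩ F).card : ℝ) ≤ (r / 2 ^ (m ^ h) + ε) * F.card +
          2 * m ^ h / ε *
            (2 ^ (N ^ h) * (2 : ℝ) ^ (2 * ℓ + 4 - ε / 2 * (N / m : ℕ) / loss w ℓ d : ℝ))) ∧
    (∀ h : ℕ, 1 ≤ h → ∀ θ θ' : ℝ, 0 ≤ θ → θ < θ' → Above h θ → Relative h θ') ∧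
    (∀ h : ℕ, 1 ≤ h → ∀ θ' : ℝ, threshold h < θ' → Relative h θ') := by
  have hloss : ∀ w ℓ d : ℕ, ((loss w ℓ d : ℕ) : ℝ) = (d : ℝ) * Y347.CO.KK d w ℓ := by
    intro w ℓ d
    rw [loss, Y347.CO.KK, Nat.cast_mul]
  have h3 : ∀ h : ℕ, 1 ≤ h → ∀ θ θ' : ℝ, 0 ≤ θ → θ < θ' → Above h θ → Relative h θ' := by
    intro h hh θ θ' hθ0 hθ habove
    obtain ⟨c, hc, hrel⟩ := Y347.CO.hj_rel_c h hh θ θ' hθ0 hθ habove
    refine ⟨c, hc, fun N w ℓ d hw hℓ hd1 F S hF hS => ?_⟩
    obtain ⟨C, o, e, hleak, hs, hd, hCF⟩ := hF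
    rw [hloss]
    exact hrel N w ℓ d C hleak hℓ hw hd1 hs hd o e F S hCF hS
  refine ⟨?_, ?_, h3, ?_⟩
  · intro h N w ℓ d T hh hw hℓ hd1 S F hS hF hun
    have h1 : ∀ i, ((F i).card : ℝ) ≤
        2 ^ (N ^ h) * (2 : ℝ) ^ (2 * ℓ + 4 - N / loss w ℓ d : ℝ) := by
      intro i
      obtain ⟨C, o, e, hleak, hs, hd, hCF⟩ := hF i
      rw [hloss]
      exact Y347.CO.hj_small Y220.CO.done C hleak hℓ hw hd1 hs hd o e hh (F i) hCF
        (fun hg => hS (Y347.CO.goodH_mono (fun p hp => (hun p).2 ⟨i, hp⟩) hg))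
    have h2 : S.card ≤ ∑ i, (F i).card := by
      refine (card_le_card (t := univ.biUnion F) fun p hp => ?_).trans card_biUnion_le
      obtain ⟨i, hi⟩ := (hun p).1 hp
      exact mem_biUnion.2 ⟨i, mem_univ _, hi⟩
    have h3 : (S.card : ℝ) ≤ ∑ i, ((F i).card : ℝ) := by exact_mod_cast h2
    refine h3.trans ((sum_le_sum fun i _ => h1 i).trans (le_of_eq ?_))
    rw [sum_const, card_univ, Fintype.card_fin, nsmul_eq_mul, mul_assoc]
  · intro h N m w ℓ d r hh hw hℓ hd1 hm hmn hr F S hF hS ε hε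
    obtain ⟨C, o, e, hleak, hs, hd, hCF⟩ := hF
    rw [hloss]
    exact Y347.CO.hj_rel_add C hleak hℓ hw hd1 hs hd o e hh hm hmn F S hCF hS r hr hε
  · intro h hh θ' hθ'
    have h0 : 0 ≤ threshold h := by
      unfold threshold
      split_ifs
      · norm_num
      · have h1 : (1 : ℝ) ≤ 2 ^ (h - 1) := one_le_pow₀ (by norm_num)
        have h2 : (1 : ℝ) < 2 ^ h := one_lt_pow₀ (by norm_num) (by omega)
        exact div_nonneg (by linarith) (by linarith)
    refine h3 h hh (threshold h) θ' h0 hθ' ?_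
    intro δ hδ
    have key : ∃ N₀ : ℕ, ∀ N : ℕ, N₀ ≤ N → ∀ S : Finset (Finset (Fin h → Fin N)),
        δ * (2 : ℝ) ^ (N ^ h) < S.card → Good S := by
      unfold threshold at hδ
      by_cases h2 : h = 2
      · subst h2
        rw [if_pos rfl] at hδ
        exact Pool.Agent.TH635.BV.thr2 δ hδ
      · rw [if_neg h2] at hδ
        exact Pool.Agent.TH635.PH.Thr.thr h hh δ hδ
    obtain ⟨N₀, hN₀⟩ := key
    exact ⟨N₀ + 1, by omega, hN₀ (N₀ + 1) (by omega)⟩

end Pool.Agent.Results.MP_90b327_co.ConstantDepthCircuits
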