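import Pool.Agent.Y347.CO.HjThm
import Pool.Agent.Y474.CO.Affsh
import Pool.Agent.Y977.CO.SelfF

set_option autoImplicit false

/-!
# The restricted density polynomial Hales-Jewett conjecture for closed families

Families of subsets of `[N]^d` that are closed under some Boolean operation depending on at least
two of its arguments, and have more than `2 ^ (N ^ d - N / (d + 1))` elements, are good.
-/

namespace Pool.Agent.Results.MP_90b327_co.CoordinatewiseOperations

open Finset Function

/-- The family `S` of subsets of `[N]^d` is good: there are `A ∈ S` and a nonempty `γ ⊆ [N]` with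
`A ∩ γ^d = ∅` and `A ∪ γ^d ∈ S`. -/
def Good {d N : ℕ} (S : Finset (Finset (Fin d → Fin N))) : Prop :=
  ∃ A ∈ S, ∃ γ : Finset (Fin N), γ.Nonempty ∧
    Disjoint A (Fintype.piFinset (fun _ : Fin d => γ)) ∧
    A ∪ Fintype.piFinset (fun _ : Fin d => γ) ∈ S

/-- The set `f (a_1, ..., a_k)` of all `x` with `f (x ∈ a_1, ..., x ∈ a_k) = true`. -/
def app {X : Type} [Fintype X] [DecidableEq X] {k : ℕ} (f : (Fin k → Bool) → Bool)
    (a : Fin k → Finset X) : Finset X :=
  univ.filter fun x => f (fun l => decide (x ∈ a l)) = true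

/-- `S` is closed under the Boolean operation `f`. -/
def Closed {X : Type} [Fintype X] [DecidableEq X] {k : ℕ} (S : Finset (Finset X))
    (f : (Fin k → Bool) → Bool) : Prop :=
  ∀ a : Fin k → Finset X, (∀ l, a l ∈ S) → app f a ∈ S

/-- `f` depends on its argument number `j`. -/
def Depends {k : ℕ} (f : (Fin k → Bool) → Bool) (j : Fin k) : Prop :=
  ∃ x : Fin k → Bool, f (update x j true) ≠ f (update x j false)

/-- `S` is defined by conditions on at most `r` elements: `B ∈ S` as soon as every set `J` of at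
most `r` elements has the same intersection with `B` and with some `A ∈ S`. -/
def Local {X : Type} (r : ℕ) (S : Finset (Finset X)) : Prop :=
  ∀ B : Finset X, (∀ J : Finset X, J.card ≤ r → ∃ A ∈ S, ∀ x ∈ J, (x ∈ A ↔ x ∈ B)) → B ∈ S

/-- **Theorem.** Let `d ≥ 1`.
(1) Let `f : {0,1}^k → {0,1}` be any operation that depends on at least two of its arguments. Every
family `S` of subsets of `[N]^d` that is closed under `f` and is not good has at most
`2 ^ (N ^ d - N / (d + 1))` elements.
(2) This is sharp for `A ∆ B ∆ C`: for `N = (d + 1) m` some family closed under this operation with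
exactly `2 ^ (N ^ d - m)` elements is not good.
(3) If `S` is closed under an operation which is the intersection on some set `P ⊆ [N]^d` and the
union outside `P` and `S` is not good, then `|S| ≤ 2 ^ (N ^ d - N / 2)`.
(4) If `S` is defined by conditions on at most `r` elements, for instance if `S` is closed under
some near unanimity operations of arity `r + 1` (which may be different for the elements of
`[N]^d`), and `S` is not good, then `|S| ≤ 2 ^ (N ^ d - N / r)`.
(5) This is sharp for `r = 2`: for `N = 2 m` some family with exactly `2 ^ (N ^ d - m)` elements,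
closed under all self-dual operations, in particular under the majority, is not good. -/
theorem result :
    (∀ d : ℕ, 1 ≤ d → ∀ (k : ℕ) (f : (Fin k → Bool) → Bool) (j j' : Fin k), j ≠ j' →
      Depends f j → Depends f j' → ∀ (N : ℕ) (S : Finset (Finset (Fin d → Fin N))),
        Closed S f → ¬ Good S → (S.card : ℝ) ≤ (2 : ℝ) ^ ((N : ℝ) ^ d - N / (d + 1))) ∧
    (∀ d : ℕ, 1 ≤ d → ∀ m : ℕ, ∃ S : Finset (Finset (Fin d → Fin ((d + 1) * m))),
      (∀ A ∈ S, ∀ B ∈ S, ∀ C ∈ S, symmDiff A (symmDiff B C) ∈ S) ∧ ¬ Good S ∧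
        S.card * 2 ^ m = 2 ^ (((d + 1) * m) ^ d)) ∧
    (∀ d : ℕ, 1 ≤ d → ∀ (N : ℕ) (S : Finset (Finset (Fin d → Fin N)))
      (P : Finset (Fin d → Fin N)), (∀ A ∈ S, ∀ B ∈ S, (A ∩ B ∩ P) ∪ ((A ∪ B) \ P) ∈ S) →
        ¬ Good S → (S.card : ℝ) ≤ (2 : ℝ) ^ ((N : ℝ) ^ d - N / 2)) ∧
    (∀ d : ℕ, 1 ≤ d → ∀ (N r : ℕ) (S : Finset (Finset (Fin d → Fin N))), 1 ≤ r →
      (Local r S ∨ ∃ f : (Fin d → Fin N) → (Fin (r + 1) → Bool) → Bool,
        (∀ x l u v, f x (update (fun _ => u) l v) = u) ∧
        ∀ a : Fin (r + 1) → Finset (Fin d → Fin N), (∀ l, a l ∈ S) →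
          (univ.filter fun x => f x (fun l => decide (x ∈ a l)) = true) ∈ S) →
      ¬ Good S → (S.card : ℝ) ≤ (2 : ℝ) ^ ((N : ℝ) ^ d - N / r)) ∧
    (∀ d : ℕ, 1 ≤ d → ∀ m : ℕ, ∃ S : Finset (Finset (Fin d → Fin (2 * m))),
      (∀ (k : ℕ) (f : (Fin k → Bool) → Bool), (∀ v, f (fun l => !(v l)) = !(f v)) → Closed S f) ∧
        ¬ Good S ∧ S.card * 2 ^ m = 2 ^ ((2 * m) ^ d)) := by
  refine ⟨?_, ?_, ?_, ?_, ?_⟩
  · intro d hd k f j j' hjj hj hj' N S hcl hS
    exact Y347.CO.hj_op hd f hjj hj hj' S hS hcl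
  · intro d hd m
    obtain ⟨S, h1, h2, h3⟩ := Y474.CO.done d m hd
    exact ⟨S, h2, h1, h3⟩
  · intro d hd N S P h hS
    refine Y347.CO.hj_semi' hd S hS (fun x => if x ∈ P then and else or) (fun x => ?_) ?_
    · by_cases hx : x ∈ P
      · rw [if_pos hx]
        exact ⟨Bool.and_comm, Bool.and_assoc, Bool.and_self⟩
      · rw [if_neg hx]
        exact ⟨Bool.or_comm, Bool.or_assoc, Bool.or_self⟩
    · intro A hA B hB
      convert h A hA B hB using 1
      ext x
      by_cases hx : x ∈ P
      · simp [hx]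
      · simp [hx]
  · rintro d hd N r S hr (h | ⟨f, hf, hcl⟩) hS
    · refine Y347.CO.hj_local hd hr S hS ?_
      intro w hw
      rw [mem_map_equiv]
      refine h _ fun J hJ => ?_
      obtain ⟨a, ha, haw⟩ := hw J hJ
      rw [mem_map_equiv] at ha
      refine ⟨_, ha, fun x hx => ?_⟩
      have := haw x hx
      simp [Y347.CO.setEquiv, this]
    · exact Y347.CO.hj_nu hd hr S hS f hf hcl
  · intro d hd m
    obtain ⟨S, h1, h2, h3⟩ := Y977.CO.done d m hd
    exact ⟨S, h2, h1, h3⟩

end Pool.Agent.Results.MP_90b327_co.CoordinatewiseOperations
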